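import Pool.Agent.PQP.StmtsV

/-!
Squad PQP, row ZVI: the zonal virial identity.
-/

set_option autoImplicit false

open scoped InnerProductSpace Topology ContDiff Manifold
open MeasureTheory Filter Set

noncomputable section

namespace Pool.Agent.PQP.H47

open Pool.Agent.Helper42_Paneitz Pool.Agent.Helper82_Vir Pool.Agent.FLX

theorem sm_logW {W : S4 → ℝ} (hW : Sm W) (h0 : ∀ x, 0 < W x) :
    Sm (fun x => Real.log (W x)) := by
  intro y hy
  have h1 : radialExt (fun x => Real.log (W x)) =ᶠ[𝓝 y] fun z => Real.log (radialExt W z) := by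
    filter_upwards [eventually_ne_zero hy] with z hz
    simp only [radialExt_apply _ hz]
  have h2 : radialExt W y ≠ 0 := by
    rw [radialExt_apply _ hy]
    exact (h0 _).ne'
  exact ((hW y hy).log h2).congr_of_eventuallyEq h1

theorem cz_continuous (z : S4) : Continuous fun x : S4 => ⟪(z : E5), (x : E5)⟫_ℝ :=
  continuous_of_sm (sm_inner (z : E5))

theorem kernel_bound (z : S4) {g : ℝ → ℝ} (hg : ContDiff ℝ ∞ g) : ∃ L : ℝ, 0 ≤ L ∧
    ∀ x y : S4, |(g ⟪(z : E5), (x : E5)⟫_ℝ - g ⟪(z : E5), (y : E5)⟫_ℝ) *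
      (⟪(z : E5), (x : E5)⟫_ℝ - ⟪(z : E5), (y : E5)⟫_ℝ) / (1 - ⟪(x : E5), (y : E5)⟫_ℝ)| ≤ L := by
  obtain ⟨L, hL0, hL⟩ := sm_lipschitz (sm_comp (sm_inner (z : E5)) hg)
  refine ⟨2 * L, by positivity, fun x y => ?_⟩
  have h1 := hL x y
  have h2 : |⟪(z : E5), (x : E5)⟫_ℝ - ⟪(z : E5), (y : E5)⟫_ℝ| ≤ ‖(x : E5) - (y : E5)‖ := by
    rw [← inner_sub_right]
    have := abs_real_inner_le_norm (z : E5) ((x : E5) - (y : E5))
    rwa [S4_norm, one_mul] at this
  have h3 := norm_sub_sq_S4 x y
  have h4 : 0 ≤ 1 - ⟪(x : E5), (y : E5)⟫_ℝ := by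
    have := inner_le_one x y
    linarith
  rw [abs_div, abs_mul, abs_of_nonneg h4]
  rcases h4.eq_or_lt with h5 | h5
  · rw [← h5, div_zero]
    positivity
  · rw [div_le_iff₀ h5]
    have h6 : |g ⟪(z : E5), (x : E5)⟫_ℝ - g ⟪(z : E5), (y : E5)⟫_ℝ| *
        |⟪(z : E5), (x : E5)⟫_ℝ - ⟪(z : E5), (y : E5)⟫_ℝ|
        ≤ (L * ‖(x : E5) - (y : E5)‖) * ‖(x : E5) - (y : E5)‖ :=
      mul_le_mul h1 h2 (abs_nonneg _) (by positivity)
    nlinarith

theorem zvi (hVIR : VirStmt) : ZviStmt := by
  intro W f z g hW hW0 hSol hg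
  have hfc : Continuous f := hSol.1.1
  have hf1 : ∫ y, f y ∂sig = 1 := hSol.1.2.2
  set c : S4 → ℝ := fun x => ⟪(z : E5), (x : E5)⟫_ℝ with hc
  have hcc : Continuous c := cz_continuous z
  have hgc : Sm (fun x => g (c x)) := sm_comp (sm_inner (z : E5)) hg
  have hA : ∀ v : E5, ⟪(0 : E5 →L[ℝ] E5) v, v⟫_ℝ = 0 := fun v => by simp
  have hcf : ∀ x : S4, cf (z : E5) 0 x = (z : E5) - c x • (x : E5) := by
    intro x
    unfold cf
    simp [hc]
  set V : S4 → E5 := fun x => g (c x) • cf (z : E5) 0 x with hVdef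
  have hV : SmV V := smV_smul hgc (smV_cf _ _)
  have htan : ∀ x : S4, ⟪(x : E5), V x⟫_ℝ = 0 := by
    intro x
    rw [hVdef]
    simp only
    rw [inner_smul_right, cf_tangent _ hA, mul_zero]
  have hvir := hVIR W f V hW hW0 hSol hV htan
  -- left side
  have hzz : ∀ x : S4, ⟪(z : E5), cf (z : E5) 0 x⟫_ℝ = 1 - c x ^ 2 := by
    intro x
    rw [hcf, inner_sub_right, inner_smul_right, real_inner_self_eq_norm_sq, S4_norm]
    simp only [hc]
    ring
  have hL : ∀ x : S4, (dlog W x (V x) + dv V x) * f x =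
      (g (c x) * dlog W x ((z : E5) - c x • (x : E5)) + deriv g (c x) * (1 - c x ^ 2)) * f x
        - 4 * (c x * g (c x) * f x) := by
    intro x
    have h1 : dlog W x (V x) = g (c x) * dlog W x ((z : E5) - c x • (x : E5)) := by
      unfold dlog
      rw [hVdef]
      simp only
      rw [dd_smul, hcf]
    have h2 : dv V x = g (c x) * (- 4 * c x) + deriv g (c x) * (1 - c x ^ 2) := by
      rw [hVdef, dv_smul hgc (smV_cf _ _), dv_cf _ hA, dd_comp (sm_inner (z : E5)) hg, dd_inner,
        hzz, cf_tangent _ hA]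
      ring
    rw [h1, h2]
    ring
  have hlogc : Continuous fun x => dlog W x ((z : E5) - c x • (x : E5)) := by
    have h1 : Continuous fun x : S4 => (z : E5) - c x • (x : E5) :=
      continuous_const.sub (hcc.smul continuous_subtype_val)
    exact continuous_dd_field (sm_logW hW hW0) h1
  have hgcc : Continuous fun x => g (c x) := hg.continuous.comp hcc
  have hg'c : Continuous fun x => deriv g (c x) := (hg.continuous_deriv (by simp)).comp hcc
  have hΦ : Continuous fun x =>
      (g (c x) * dlog W x ((z : E5) - c x • (x : E5)) + deriv g (c x) * (1 - c x ^ 2)) * f x :=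
    ((hgcc.mul hlogc).add (hg'c.mul (continuous_const.sub (hcc.pow 2)))).mul hfc
  have hm : Continuous fun x => c x * g (c x) * f x := (hcc.mul hgcc).mul hfc
  set I := ∫ x, c x * g (c x) * f x ∂sig with hI
  have hLint : ∫ x, (dlog W x (V x) + dv V x) * f x ∂sig =
      ∫ x, (g (c x) * dlog W x ((z : E5) - c x • (x : E5)) + deriv g (c x) * (1 - c x ^ 2)) * f x
        ∂sig - 4 * I := by
    rw [integral_congr_ae (Filter.Eventually.of_forall hL),
      integral_sub (integrable_cont hΦ) ((integrable_cont hm).const_mul 4), integral_const_mul]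
  -- right side
  set H : S4 × S4 → ℝ := fun p => (g (c p.1) - g (c p.2)) * (c p.1 - c p.2) /
    (1 - ⟪(p.1 : E5), (p.2 : E5)⟫_ℝ) * (f p.1 * f p.2) with hH
  set M : S4 × S4 → ℝ := fun p => (c p.1 * g (c p.1) + c p.2 * g (c p.2)) * (f p.1 * f p.2) with hM
  have hMc : Continuous M := by
    have h1 : Continuous fun p : S4 × S4 => c p.1 * g (c p.1) :=
      (hcc.mul hgcc).comp continuous_fst
    have h2 : Continuous fun p : S4 × S4 => c p.2 * g (c p.2) :=
      (hcc.mul hgcc).comp continuous_snd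
    exact (h1.add h2).mul ((hfc.comp continuous_fst).mul (hfc.comp continuous_snd))
  have hMi : Integrable M (sig.prod sig) := integrable2 hMc
  have hHi : Integrable H (sig.prod sig) := by
    obtain ⟨L, hL0, hLb⟩ := kernel_bound z hg
    have hffc : Continuous fun p : S4 × S4 => f p.1 * f p.2 :=
      (hfc.comp continuous_fst).mul (hfc.comp continuous_snd)
    obtain ⟨B, hB0, hB⟩ := exists_bound2 hffc
    refine Integrable.of_bound (C := L * B) ?_ (Filter.Eventually.of_forall fun p => ?_)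
    · apply Measurable.aestronglyMeasurable
      have h1 : Continuous fun p : S4 × S4 => (g (c p.1) - g (c p.2)) * (c p.1 - c p.2) :=
        ((hgcc.comp continuous_fst).sub (hgcc.comp continuous_snd)).mul
          ((hcc.comp continuous_fst).sub (hcc.comp continuous_snd))
      have h2 : Continuous fun p : S4 × S4 => 1 - ⟪(p.1 : E5), (p.2 : E5)⟫_ℝ :=
        continuous_const.sub continuous_inner_S4
      exact (h1.measurable.div h2.measurable).mul hffc.measurable
    · rw [Real.norm_eq_abs]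
      simp only [hH]
      rw [abs_mul]
      exact mul_le_mul (hLb p.1 p.2) (hB p) (abs_nonneg _) hL0
  have hk : ∀ x y : S4, y ≠ x →
      ⟪V x - V y, (x : E5) - (y : E5)⟫_ℝ / ‖(x : E5) - (y : E5)‖ ^ 2 * (f x * f y) =
        1 / 2 * H (x, y) - 1 / 2 * M (x, y) := by
    intro x y hxy
    have hne : ⟪(x : E5), (y : E5)⟫_ℝ ≠ 1 := by
      intro h
      have h1 := norm_sub_sq_S4 x y
      rw [h, sub_self, mul_zero] at h1
      have h2 : (x : E5) - (y : E5) = 0 := norm_eq_zero.1 (by nlinarith [norm_nonneg ((x : E5) - (y : E5))])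
      exact hxy (Subtype.ext (sub_eq_zero.1 h2).symm)
    have hs : (1 - ⟪(x : E5), (y : E5)⟫_ℝ) ≠ 0 := fun h => hne (by linarith)
    have hVx : ⟪V x, (y : E5)⟫_ℝ = g (c x) * (c y - c x * ⟪(x : E5), (y : E5)⟫_ℝ) := by
      rw [hVdef]
      simp only
      rw [real_inner_smul_left, hcf, inner_sub_left, real_inner_smul_left]
    have hVy : ⟪V y, (x : E5)⟫_ℝ = g (c y) * (c x - c y * ⟪(x : E5), (y : E5)⟫_ℝ) := by
      rw [hVdef]
      simp only
      rw [real_inner_smul_left, hcf, inner_sub_left, real_inner_smul_left,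
        real_inner_comm (x : E5) (y : E5)]
    have hx := htan x
    have hy := htan y
    rw [real_inner_comm] at hx hy
    rw [norm_sub_sq_S4, inner_sub_left, inner_sub_right, inner_sub_right, hx, hy, hVx, hVy]
    simp only [hH, hM]
    field_simp
    ring
  have hR : ∫ x, ∫ y, ⟪V x - V y, (x : E5) - (y : E5)⟫_ℝ / ‖(x : E5) - (y : E5)‖ ^ 2 *
      (f x * f y) ∂sig ∂sig = 1 / 2 * ∫ x, ∫ y, H (x, y) ∂sig ∂sig - 1 / 2 * (2 * I) := by
    have h1 : ∀ x : S4, ∫ y, ⟪V x - V y, (x : E5) - (y : E5)⟫_ℝ / ‖(x : E5) - (y : E5)‖ ^ 2 *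
        (f x * f y) ∂sig = ∫ y, (1 / 2 * H (x, y) - 1 / 2 * M (x, y)) ∂sig := by
      intro x
      apply integral_congr_ae
      filter_upwards [ae_ne x] with y hy
      exact hk x y hy
    rw [integral_congr_ae (Filter.Eventually.of_forall h1)]
    have h2 := integral_prod (fun p : S4 × S4 => 1 / 2 * H p - 1 / 2 * M p)
      ((hHi.const_mul (1 / 2)).sub (hMi.const_mul (1 / 2)))
    rw [← h2, integral_sub (hHi.const_mul (1 / 2)) (hMi.const_mul (1 / 2)), integral_const_mul,
      integral_const_mul, integral_prod _ hHi, integral_prod _ hMi]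
    congr 2
    have h3 : ∀ x : S4, ∫ y, M (x, y) ∂sig = c x * g (c x) * f x + f x * I := by
      intro x
      have h4 : ∀ y : S4, M (x, y) = (c x * g (c x) * f x) * f y + f x * (c y * g (c y) * f y) := by
        intro y
        simp only [hM]
        ring
      rw [integral_congr_ae (Filter.Eventually.of_forall h4),
        integral_add ((integrable_cont hfc).const_mul _) ((integrable_cont hm).const_mul _),
        integral_const_mul, integral_const_mul, hf1, mul_one]
    rw [integral_congr_ae (Filter.Eventually.of_forall h3),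
      integral_add (integrable_cont hm) ((integrable_cont hfc).mul_const _), integral_mul_const,
      hf1]
    ring
  rw [hLint, hR] at hvir
  have hfin : ∫ x, (g (c x) * dlog W x ((z : E5) - c x • (x : E5)) +
      deriv g (c x) * (1 - c x ^ 2)) * f x ∂sig = 2 * ∫ x, ∫ y, H (x, y) ∂sig ∂sig := by
    linarith
  exact hfin

end Pool.Agent.PQP.H47
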