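import Pool.Agent.PQP.StmtsE

/-!
Squad PQP, row NEA: the error of the near part.
-/

set_option autoImplicit false

open scoped InnerProductSpace Topology ContDiff Manifold
open MeasureTheory Filter Set

noncomputable section

namespace Pool.Agent.PQP.H47

open Pool.Agent.Helper42_Paneitz Pool.Agent.Helper82_Vir Pool.Agent.FLX

theorem nea (hKER : KerStmt) (hMOS : MosStmt) (hMKB : MkbStmt) : NeaStmt := by
  obtain ⟨C₀, hC₀, h0⟩ := hMKB 3 (by norm_num) (by norm_num)
  have hms := msig_pos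
  refine ⟨4 * C₀ + 4 * msig, by positivity, ?_⟩
  intro p T ρ q k B M hG hC w l hl0 hl1
  have hB := hC.B0
  have h3 : ∀ u : ℝ, u ^ (3 : ℝ) = u ^ 3 := fun u => by
    rw [← Real.rpow_natCast]
    norm_num
  have hbn : ‖l • (w : E5)‖ < 1 := by
    rw [norm_smul, S4_norm, mul_one, Real.norm_of_nonneg hl0]
    exact hl1
  have hmc : Continuous (mob (l • (w : E5))) := by
    rw [← continuousOn_univ]
    exact (hMOS.1.comp (f := fun x : S4 => (l • (w : E5), x)) (by fun_prop)
      (fun x _ => hbn))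
  have hmcE : Continuous fun y => (mob (l • (w : E5)) y : E5) := continuous_subtype_val.comp hmc
  set g : S4 → ℝ := fun y => ‖(mob (l • (w : E5)) y : E5) - (w : E5)‖ ^ 3 with hg
  have hgc : Continuous g := (hmcE.sub continuous_const).norm.pow 3
  have hg0 : ∀ y, 0 ≤ g y := fun y => by positivity
  set d : ℝ := ‖(w : E5) - (p : E5)‖ with hd
  have hd0 : 0 ≤ d := norm_nonneg _
  have hNm : MeasurableSet {y : S4 | ‖(mob (l • (w : E5)) y : E5) - (p : E5)‖ < ρ} :=
    (isOpen_lt (hmcE.sub continuous_const).norm continuous_const).measurableSet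
  -- the moment
  have hmom : ∫ y, g y ∂sig ≤ C₀ * (√(1 - l ^ 2)) ^ 3 := by
    have h1 := h0 w w l hl0 hl1
    rw [h3] at h1
    refine le_trans ?_ h1
    have hi : Integrable (fun y => (1 + |ell w y|) *
        ‖(mob (l • (w : E5)) y : E5) - (w : E5)‖ ^ (3 : ℝ)) sig := by
      have h2 := (integrable_cont hgc).add (integrable_ell_mul (hKER.1 w) hgc).abs
      refine h2.congr (Eventually.of_forall fun y => ?_)
      simp only [Pi.add_apply, abs_mul, abs_of_nonneg (hg0 y), h3]
      simp only [hg]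
      ring
    refine integral_mono (integrable_cont hgc) hi fun y => ?_
    simp only [h3, hg]
    have h4 : 0 ≤ ‖(mob (l • (w : E5)) y : E5) - (w : E5)‖ ^ 3 := by positivity
    nlinarith [abs_nonneg (ell w y), mul_nonneg (abs_nonneg (ell w y)) h4]
  -- the majorant
  have hGc : Continuous fun y => B * (4 * g y + 4 * d ^ 3) := by fun_prop
  have hGi : Integrable (fun y => B * (4 * g y + 4 * d ^ 3)) sig := integrable_cont hGc
  have hpt : ∀ y ∈ {y : S4 | ‖(mob (l • (w : E5)) y : E5) - (p : E5)‖ < ρ},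
      ‖(q (mob (l • (w : E5)) y) + k * ⟪T (mob (l • (w : E5)) y : E5),
        (mob (l • (w : E5)) y : E5)⟫_ℝ) • (y : E5)‖ ≤ B * (4 * g y + 4 * d ^ 3) := by
    intro y hy
    rw [norm_smul, S4_norm, mul_one, Real.norm_eq_abs]
    refine (hC.near _ hy).trans (mul_le_mul_of_nonneg_left ?_ hB)
    have h5 : ‖(mob (l • (w : E5)) y : E5) - (p : E5)‖ ≤
        ‖(mob (l • (w : E5)) y : E5) - (w : E5)‖ + d := norm_sub_le_norm_sub_add_norm_sub _ _ _
    have h6 : 0 ≤ ‖(mob (l • (w : E5)) y : E5) - (w : E5)‖ := norm_nonneg _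
    refine (pow_le_pow_left₀ (norm_nonneg _) h5 3).trans ?_
    simp only [hg]
    set a := ‖(mob (l • (w : E5)) y : E5) - (w : E5)‖ with ha
    nlinarith [mul_nonneg (add_nonneg h6 hd0) (sq_nonneg (a - d))]
  calc ‖∫ y in {y : S4 | ‖(mob (l • (w : E5)) y : E5) - (p : E5)‖ < ρ},
      (q (mob (l • (w : E5)) y) + k * ⟪T (mob (l • (w : E5)) y : E5),
        (mob (l • (w : E5)) y : E5)⟫_ℝ) • (y : E5) ∂sig‖
      ≤ ∫ y in {y : S4 | ‖(mob (l • (w : E5)) y : E5) - (p : E5)‖ < ρ},
        B * (4 * g y + 4 * d ^ 3) ∂sig :=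
        norm_integral_le_of_norm_le hGi.integrableOn (ae_restrict_of_forall_mem hNm hpt)
    _ ≤ ∫ y, B * (4 * g y + 4 * d ^ 3) ∂sig :=
        setIntegral_le_integral hGi (Eventually.of_forall fun y =>
          mul_nonneg hB (by have := hg0 y; positivity))
    _ = B * (4 * (∫ y, g y ∂sig) + 4 * d ^ 3 * msig) := by
        rw [integral_const_mul, integral_add ((integrable_cont hgc).const_mul 4)
          (integrable_const _), integral_const_mul, integral_const]
        simp only [smul_eq_mul, Measure.real]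
        unfold msig
        ring
    _ ≤ (4 * C₀ + 4 * msig) * B * ((√(1 - l ^ 2)) ^ 3 + d ^ 3) := by
        have h7 : 0 ≤ (√(1 - l ^ 2)) ^ 3 := by positivity
        have h8 : 0 ≤ d ^ 3 := by positivity
        have h9 : 4 * (∫ y, g y ∂sig) + 4 * d ^ 3 * msig ≤
            (4 * C₀ + 4 * msig) * ((√(1 - l ^ 2)) ^ 3 + d ^ 3) := by
          nlinarith [mul_nonneg hms.le h7, mul_nonneg hC₀ h8]
        calc B * (4 * (∫ y, g y ∂sig) + 4 * d ^ 3 * msig)
            ≤ B * ((4 * C₀ + 4 * msig) * ((√(1 - l ^ 2)) ^ 3 + d ^ 3)) :=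
              mul_le_mul_of_nonneg_left h9 hB
          _ = _ := by ring

end Pool.Agent.PQP.H47
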