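import Pool.Agent.PQP.StmtsN

/-!
Squad PQP, row PAF: the parabolic field with a double zero.
-/

set_option autoImplicit false

open scoped InnerProductSpace Topology ContDiff Manifold
open MeasureTheory Filter Set

noncomputable section

namespace Pool.Agent.PQP.H47

open Pool.Agent.Helper42_Paneitz Pool.Agent.Helper82_Vir Pool.Agent.FLX

theorem paf : PafStmt := by
  intro N w ε₁ hε hw e he
  set δ : ℝ := 1 - ⟪(N : E5), (w : E5)⟫_ℝ with hδ
  have hδ0 : 0 < δ := hε.trans_le hw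
  set κ : ℝ := ⟪(N : E5), e⟫_ℝ / δ with hκ
  have hκδ : κ * δ = ⟪(N : E5), e⟫_ℝ := div_mul_cancel₀ _ hδ0.ne'
  obtain ⟨a, ha⟩ : ∃ a : E5, a = δ⁻¹ • (e + κ • ((w : E5) - (N : E5))) := ⟨_, rfl⟩
  have hNN : ⟪(N : E5), (N : E5)⟫_ℝ = 1 := by rw [real_inner_self_eq_norm_sq, S4_norm]; norm_num
  have hww : ⟪(w : E5), (w : E5)⟫_ℝ = 1 := by rw [real_inner_self_eq_norm_sq, S4_norm]; norm_num
  have haN : ⟪(N : E5), a⟫_ℝ = 0 := by
    rw [ha, inner_smul_right, inner_add_right, inner_smul_right, inner_sub_right, hNN]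
    have : ⟪(N : E5), e⟫_ℝ + κ * (⟪(N : E5), (w : E5)⟫_ℝ - 1) = 0 := by
      rw [← hκδ, hδ]
      ring
    rw [this, mul_zero]
  have haw : ⟪a, (w : E5)⟫_ℝ = κ := by
    rw [real_inner_comm, ha, inner_smul_right, inner_add_right, inner_smul_right, inner_sub_right,
      hww, he, real_inner_comm (N : E5) (w : E5)]
    field_simp
    rw [hδ]
    ring
  have hcf : ∀ x : S4, cf a (An (N : E5) a) x =
      (1 - ⟪(N : E5), (x : E5)⟫_ℝ) • a - ⟪a, (x : E5)⟫_ℝ • ((x : E5) - (N : E5)) := by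
    intro x
    unfold cf
    rw [An_apply]
    module
  have hnorm : ∀ x : S4, ‖cf a (An (N : E5) a) x‖ = (1 - ⟪(N : E5), (x : E5)⟫_ℝ) * ‖a‖ := by
    intro x
    have h1 : 0 ≤ 1 - ⟪(N : E5), (x : E5)⟫_ℝ := by
      have := inner_le_one N x
      linarith
    have h2 : ‖cf a (An (N : E5) a) x‖ ^ 2 = ((1 - ⟪(N : E5), (x : E5)⟫_ℝ) * ‖a‖) ^ 2 := by
      have h3 : ‖(x : E5) - (N : E5)‖ ^ 2 = 2 * (1 - ⟪(N : E5), (x : E5)⟫_ℝ) := by
        rw [norm_sub_sq_S4, real_inner_comm]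
      have h4 : ⟪a, (x : E5) - (N : E5)⟫_ℝ = ⟪a, (x : E5)⟫_ℝ := by
        rw [inner_sub_right, real_inner_comm (N : E5) a, haN, sub_zero]
      rw [hcf, norm_sub_sq_real, norm_smul, norm_smul, real_inner_smul_left, inner_smul_right, h4,
        mul_pow, mul_pow, h3, Real.norm_eq_abs, Real.norm_eq_abs, sq_abs, sq_abs]
      ring
    have h5 : 0 ≤ (1 - ⟪(N : E5), (x : E5)⟫_ℝ) * ‖a‖ := by positivity
    exact (sq_eq_sq₀ (norm_nonneg _) h5).1 h2
  have hcw : cf a (An (N : E5) a) w = e := by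
    rw [hcf, haw, ← hδ, ha, smul_smul, mul_inv_cancel₀ hδ0.ne', one_smul]
    abel
  have hea : ‖e‖ = δ * ‖a‖ := by
    have := hnorm w
    rwa [hcw] at this
  have hab : ‖a‖ ≤ ‖e‖ / ε₁ := by
    rw [le_div_iff₀ hε, hea, mul_comm]
    exact mul_le_mul_of_nonneg_right hw (norm_nonneg _)
  refine ⟨a, An (N : E5) a, An_skew _ _, hab, ?_, hcw, fun x => ?_⟩
  · have h1 : ‖An (N : E5) a‖ ≤ 2 * ‖a‖ := by
      refine ContinuousLinearMap.opNorm_le_bound _ (by positivity) fun v => ?_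
      rw [An_apply]
      refine (norm_sub_le _ _).trans ?_
      rw [norm_smul, norm_smul, S4_norm, Real.norm_eq_abs, Real.norm_eq_abs]
      have h2 := abs_real_inner_le_norm a v
      have h3 := abs_real_inner_le_norm (N : E5) v
      rw [S4_norm, one_mul] at h3
      nlinarith [norm_nonneg a, mul_le_mul_of_nonneg_right h3 (norm_nonneg a)]
    refine h1.trans ?_
    rw [mul_div_assoc]
    exact mul_le_mul_of_nonneg_left hab (by norm_num)
  · rw [hnorm]
    have h1 : 0 ≤ 1 - ⟪(N : E5), (x : E5)⟫_ℝ := by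
      have := inner_le_one N x
      linarith
    exact mul_le_mul_of_nonneg_left hab h1

end Pool.Agent.PQP.H47
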