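import Pool.Agent.PQP.StmtsN

/-!
Squad PQP, row TCF: Taylor constants for conformal derivatives.
-/

set_option autoImplicit false

open scoped InnerProductSpace Topology ContDiff Manifold
open MeasureTheory Filter Set

noncomputable section

namespace Pool.Agent.PQP.H47

open Pool.Agent.Helper42_Paneitz Pool.Agent.Helper82_Vir Pool.Agent.FLX

theorem diffAt_fderiv {f : S4 → ℝ} (hf : Sm f) {y : E5} (hy : y ≠ 0) :
    DifferentiableAt ℝ (fderiv ℝ (radialExt f)) y := by
  have h1 : ContDiffAt ℝ 1 (fderiv ℝ (radialExt f)) y :=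
    ((hf y hy).of_le two_le_infty).fderiv_right (m := 1) (by norm_num)
  exact h1.differentiableAt (by norm_num)

theorem hess_fun_add {f g : S4 → ℝ} (hf : Sm f) (hg : Sm g) (x : S4) (v w : E5) :
    hess (fun z => f z + g z) x v w = hess f x v w + hess g x v w := by
  have hx := S4_ne_zero x
  have h1 : fderiv ℝ (radialExt fun z => f z + g z) =ᶠ[𝓝 (x : E5)]
      fderiv ℝ (radialExt f) + fderiv ℝ (radialExt g) := by
    filter_upwards [eventually_ne_zero hx] with y hy
    rw [(radialExt_add_ev f g hy).fderiv_eq, fderiv_add (sm_diffAt hf hy) (sm_diffAt hg hy)]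
    rfl
  unfold hess
  rw [h1.fderiv_eq, fderiv_add (diffAt_fderiv hf hx) (diffAt_fderiv hg hx)]
  rfl

theorem hess_fun_smul {f : S4 → ℝ} (hf : Sm f) (c : ℝ) (x : S4) (v w : E5) :
    hess (fun z => c * f z) x v w = c * hess f x v w := by
  have hx := S4_ne_zero x
  have h1 : fderiv ℝ (radialExt fun z => c * f z) =ᶠ[𝓝 (x : E5)]
      c • fderiv ℝ (radialExt f) := by
    filter_upwards [eventually_ne_zero hx] with y hy
    rw [(radialExt_smul_ev c f hy).fderiv_eq, fderiv_const_smul (sm_diffAt hf hy)]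
    rfl
  unfold hess
  rw [h1.fderiv_eq, fderiv_const_smul (diffAt_fderiv hf hx)]
  rfl

theorem T3_mono {B C : ℝ} {g : S4 → ℝ} (h : T3 B g) (hBC : B ≤ C) : T3 C g := by
  refine ⟨fun x y => (h.1 x y).trans ?_, fun x v => (h.2.1 x v).trans ?_,
    fun x v w => (h.2.2 x v w).trans ?_⟩
  · gcongr
  · gcongr
  · gcongr

theorem T3_add {B C : ℝ} {f g : S4 → ℝ} (hf : Sm f) (hg : Sm g) (h1 : T3 B f) (h2 : T3 C g) :
    T3 (B + C) (fun x => f x + g x) := by
  refine ⟨fun x y => ?_, fun x v => ?_, fun x v w => ?_⟩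
  · have e1 := abs_le.1 (h1.1 x y)
    have e2 := abs_le.1 (h2.1 x y)
    rw [dd_fun_add hf hg, hess_fun_add hf hg, abs_le]
    constructor
    · linarith [e1.1, e2.1]
    · linarith [e1.2, e2.2]
  · have e1 := abs_le.1 (h1.2.1 x v)
    have e2 := abs_le.1 (h2.2.1 x v)
    rw [dd_fun_add hf hg, abs_le]
    constructor
    · linarith [e1.1, e2.1]
    · linarith [e1.2, e2.2]
  · have e1 := abs_le.1 (h1.2.2 x v w)
    have e2 := abs_le.1 (h2.2.2 x v w)
    rw [hess_fun_add hf hg, abs_le]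
    constructor
    · linarith [e1.1, e2.1]
    · linarith [e1.2, e2.2]

theorem T3_smul {B : ℝ} {f : S4 → ℝ} (hf : Sm f) (c : ℝ) (h : T3 B f) :
    T3 (|c| * B) (fun x => c * f x) := by
  refine ⟨fun x y => ?_, fun x v => ?_, fun x v w => ?_⟩
  · rw [dd_fun_smul c hf, hess_fun_smul hf]
    have e : c * f y - c * f x - c * dd f x ((y : E5) - (x : E5)) -
        c * hess f x ((y : E5) - (x : E5)) ((y : E5) - (x : E5)) / 2 =
        c * (f y - f x - dd f x ((y : E5) - (x : E5)) -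
        hess f x ((y : E5) - (x : E5)) ((y : E5) - (x : E5)) / 2) := by ring
    rw [e, abs_mul, mul_assoc]
    exact mul_le_mul_of_nonneg_left (h.1 x y) (abs_nonneg c)
  · rw [dd_fun_smul c hf, abs_mul, mul_assoc]
    exact mul_le_mul_of_nonneg_left (h.2.1 x v) (abs_nonneg c)
  · rw [hess_fun_smul hf, abs_mul, mul_assoc, mul_assoc, ← mul_assoc B]
    exact mul_le_mul_of_nonneg_left (h.2.2 x v w) (abs_nonneg c)

theorem T3_zero : T3 0 (fun _ : S4 => 0) := by
  have h1 : ∀ (x : S4) (v w : E5), hess (fun _ : S4 => (0 : ℝ)) x v w = 0 := by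
    intro x v w
    have h2 := hess_fun_smul (sm_const 0) 0 x v w
    simpa using h2
  refine ⟨fun x y => ?_, fun x v => ?_, fun x v w => ?_⟩
  · rw [h1, dd_const]
    simp
  · rw [dd_const]
    simp
  · rw [h1]
    simp

theorem T3_sum {ι : Type*} (s : Finset ι) {u : ι → S4 → ℝ} {B : ι → ℝ} (hu : ∀ i, Sm (u i))
    (h : ∀ i, T3 (B i) (u i)) : T3 (∑ i ∈ s, B i) (fun x => ∑ i ∈ s, u i x) := by
  classical
  induction s using Finset.induction_on with
  | empty => simpa using T3_zero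
  | insert i s hi ih =>
    simp only [Finset.sum_insert hi]
    exact T3_add (hu i) (sm_sum s fun j _ => hu j) (h i) ih

theorem tcf (hTYT : TytStmt) : TcfStmt := by
  intro ψ hψ M hM
  have hS1 : ∀ i : Fin 5, Sm (fun x : S4 => dd ψ x (ee i)) := fun i => sm_dd hψ _
  have hS2 : ∀ p : Fin 5 × Fin 5, Sm (fun x : S4 => (x : E5) p.2 * dd ψ x (ee p.1)) :=
    fun p => sm_mul (sm_coord p.2) (hS1 p.1)
  choose B hB0 hB using fun i => hTYT _ (hS1 i)
  choose C hC0 hC using fun p => hTYT _ (hS2 p)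
  refine ⟨(∑ i, M * B i) + ∑ p, M * C p, ?_, ?_⟩
  · exact add_nonneg (Finset.sum_nonneg fun i _ => mul_nonneg hM.le (hB0 i))
      (Finset.sum_nonneg fun p _ => mul_nonneg hM.le (hC0 p))
  intro a A ha hA
  have hco : ∀ (v : E5) (i : Fin 5), |v i| ≤ ‖v‖ := by
    intro v i
    rw [← inner_ee v i]
    have := abs_real_inner_le_norm v (ee i)
    rwa [norm_ee, mul_one] at this
  have ha' : ∀ i, |a i| ≤ M := fun i => (hco a i).trans ha
  have hA' : ∀ p : Fin 5 × Fin 5, |(A (ee p.2)) p.1| ≤ M := by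
    intro p
    refine (hco _ _).trans (le_trans (A.le_opNorm _) ?_)
    rw [norm_ee, mul_one]
    exact hA
  have key : (fun x => dd ψ x (cf a A x)) = fun x : S4 =>
      (∑ i, a i * dd ψ x (ee i)) +
        ∑ p : Fin 5 × Fin 5, (A (ee p.2)) p.1 * ((x : E5) p.2 * dd ψ x (ee p.1)) := by
    funext x
    have h1 : dd ψ x (A (x : E5)) =
        ∑ p : Fin 5 × Fin 5, (A (ee p.2)) p.1 * ((x : E5) p.2 * dd ψ x (ee p.1)) := by
      have h2 : A (x : E5) = ∑ j : Fin 5, (x : E5) j • A (ee j) := by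
        conv_lhs => rw [← sum_ee (x : E5)]
        rw [map_sum]
        exact Finset.sum_congr rfl fun j _ => by rw [map_smul]
      rw [h2, dd_sum, Fintype.sum_prod_type_right]
      refine Finset.sum_congr rfl fun j _ => ?_
      rw [dd_smul, dd_eq_sum, Finset.mul_sum]
      refine Finset.sum_congr rfl fun i _ => ?_
      ring
    unfold cf
    rw [dd_add, dd_sub, dd_smul, dd_self hψ, mul_zero, sub_zero, h1, dd_eq_sum ψ x a]
  have hS3 : Sm (fun x : S4 => ∑ i, a i * dd ψ x (ee i)) :=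
    sm_sum _ fun i _ => (hS1 i).smul (a i)
  have hS4 : Sm (fun x : S4 => ∑ p : Fin 5 × Fin 5,
      (A (ee p.2)) p.1 * ((x : E5) p.2 * dd ψ x (ee p.1))) :=
    sm_sum _ fun p _ => (hS2 p).smul _
  rw [key]
  refine ⟨hS3.add hS4, T3_add hS3 hS4 ?_ ?_⟩
  · exact T3_sum Finset.univ (fun i => (hS1 i).smul (a i)) fun i =>
      T3_mono (T3_smul (hS1 i) (a i) (hB i)) (mul_le_mul_of_nonneg_right (ha' i) (hB0 i))
  · exact T3_sum Finset.univ (fun p => (hS2 p).smul _) fun p =>
      T3_mono (T3_smul (hS2 p) _ (hC p)) (mul_le_mul_of_nonneg_right (hA' p) (hC0 p))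

end Pool.Agent.PQP.H47
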